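import Pool.Agent.helper12.PFS.Spec

/-!
# MP_16a903_co: row pfs:HAM
-/

set_option autoImplicit false

namespace Pool.Agent.PFS

/-- the closed path -/
def HAM_s {G : Type} [Group G] (f : G → G) (T : G ≃ G) (g : G) : ℕ → Option G
  | 0 => none
  | i + 1 => some (zz 1 f T i * g)

theorem HAM (h1 : HCL_stmt) (h2 : CYC_stmt) : HAM_stmt := by
  intro G _ _ _ f g h hf hcard hgd
  set T : G ≃ G := Equiv.mulRight (h * g⁻¹) with hT
  have hTa : ∀ x : G, T x = x * (h * g⁻¹) := fun x => rfl
  obtain ⟨m, hc⟩ := h2 G 1 f T hf.inv hgd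
  have hcm : Fintype.card G = 2 * m + 1 := by
    rw [← Nat.card_eq_fintype_card]
    exact hc.card
  have hm : 1 ≤ m := by omega
  have hne : ∀ x : G, x ≠ 1 → x ≠ f x := fun x hx h0 => hx ((hf.inv.fix x).1 h0.symm)
  -- edges of the two one-factors
  have hEg : ∀ x : G, x ≠ 1 → (UG f g h).Adj (some (x * g)) (some (f x * g)) := by
    intro x hx
    refine Or.inl ?_
    rw [SimpleGraph.fromRel_adj]
    refine ⟨fun h0 => hne x hx (mul_right_cancel (Option.some_injective _ h0)), Or.inl (Or.inr ?_)⟩
    exact ⟨x, hx, rfl, rfl⟩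
  have hEh : ∀ x : G, x ≠ 1 → (UG f g h).Adj (some (x * h)) (some (f x * h)) := by
    intro x hx
    refine Or.inr ?_
    rw [SimpleGraph.fromRel_adj]
    refine ⟨fun h0 => hne x hx (mul_right_cancel (Option.some_injective _ h0)), Or.inl (Or.inr ?_)⟩
    exact ⟨x, hx, rfl, rfl⟩
  have hNg : (UG f g h).Adj none (some g) := by
    refine Or.inl ?_
    rw [SimpleGraph.fromRel_adj]
    exact ⟨by simp, Or.inl (Or.inl ⟨rfl, rfl⟩)⟩
  have hNh : (UG f g h).Adj (some h) none := by
    refine Or.inr ?_
    rw [SimpleGraph.fromRel_adj]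
    exact ⟨by simp, Or.inr (Or.inl ⟨rfl, rfl⟩)⟩
  have hstep : ∀ j : ℕ, j < 2 * m →
      (UG f g h).Adj (some (zz 1 f T j * g)) (some (zz 1 f T (j + 1) * g)) := by
    intro j hj
    rcases Nat.mod_two_eq_zero_or_one j with hp | hp
    · have e1 : zz 1 f T (j + 1) = T (f (T.symm (zz 1 f T j))) := by
        show (if j % 2 = 0 then _ else _) = _
        rw [if_pos hp]
      set x : G := T.symm (zz 1 f T j) with hx
      have e2 : zz 1 f T j = T x := (T.apply_symm_apply _).symm
      have hx1 : x ≠ 1 := by
        intro h0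
        have h3 : zz 1 f T j = zz 1 f T (2 * m) := by rw [hc.last, e2, h0]
        have := hc.inj j (2 * m) hj.le le_rfl h3
        omega
      have e3 : zz 1 f T j * g = x * h := by
        rw [e2, hTa]
        group
      have e4 : zz 1 f T (j + 1) * g = f x * h := by
        rw [e1, hTa]
        group
      rw [e3, e4]
      exact hEh x hx1
    · have e1 : zz 1 f T (j + 1) = f (zz 1 f T j) := by
        show (if j % 2 = 0 then _ else _) = _
        rw [if_neg (by omega)]
      have hx1 : zz 1 f T j ≠ 1 := by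
        intro h0
        have h3 : zz 1 f T j = zz 1 f T 0 := h0
        have := hc.inj j 0 hj.le (Nat.zero_le _) h3
        omega
      rw [e1]
      exact hEg _ hx1
  have hinj : ∀ i j, i < 2 * m + 2 → j < 2 * m + 2 → HAM_s f T g i = HAM_s f T g j → i = j := by
    intro i j hi hj hij
    rcases i with _ | i <;> rcases j with _ | j
    · rfl
    · exact absurd hij (by simp [HAM_s])
    · exact absurd hij (by simp [HAM_s])
    · have h3 : zz 1 f T i = zz 1 f T j := mul_right_cancel (Option.some_injective _ hij)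
      have := hc.inj i j (by omega) (by omega) h3
      omega
  have hadj : ∀ i, i + 1 < 2 * m + 2 → (UG f g h).Adj (HAM_s f T g i) (HAM_s f T g (i + 1)) := by
    intro i hi
    rcases i with _ | i
    · have e1 : HAM_s f T g (0 + 1) = some g := by
        show some (zz 1 f T 0 * g) = some g
        have : zz 1 f T 0 = 1 := rfl
        rw [this, one_mul]
      rw [e1]
      exact hNg
    · exact hstep i (by omega)
  have hclose : (UG f g h).Adj (HAM_s f T g (2 * m + 2 - 1)) (HAM_s f T g 0) := by
    have e1 : HAM_s f T g (2 * m + 2 - 1) = some h := by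
      show some (zz 1 f T (2 * m) * g) = some h
      rw [hc.last, hTa, one_mul, inv_mul_cancel_right]
    rw [e1]
    exact hNh
  obtain ⟨p, hp⟩ := h1 (Option G) (UG f g h) (2 * m + 2) (HAM_s f T g) (by omega)
    (by rw [Fintype.card_option, hcm]) hinj hadj hclose
  exact ⟨_, p, hp⟩

end Pool.Agent.PFS
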